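import Mathlib
import Pool.Agent.Lib.MP_f80667_ag.Av.StP
import Pool.Agent.Lib.MP_f80667_ag.Av.Res

open AW BE PE ZC IsDedekindDomain NumberField

/-- Zero-cycles on abelian varieties. `V` is a variety over a field `F` with a group law `G` (`Fc V`: its maps of points are
functorial, its reductions compatible with automorphisms). `F^2(V_K)` is the group of the classes, modulo rational equivalence,
of the zero-cycles over `K` of degree `0` and sum `0` (the Albanese kernel); `DvS G K a`: it is `a`-divisible.
DATA over a field `k`: curves `C_1, .., C_n` over `k` with a rational point (`Crv k`), homomorphisms `q : ∏ J(C_i) → V` and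
`s : V → ∏ J(C_i)` over `k` with `q s = m` (`Fac k C G m`; `JP C = ∏ J(C_i)` is the product of the Jacobians), where the
multiplication by `m` on `V` is surjective and has `N` points in its kernel over algebraically closed fields (`Tor G m N`).
(1) Let `K` be the completion of a number field at a finite place, `p` its residue characteristic, `V` a variety over a
subfield of `K` and `l` a prime number. `F^2(V_K)` is `l`-divisible if there are a finite extension `M` of `K` of degree prime
to `l` and DATA over (a subfield of) `M` with curves of genus `< l` with good reduction over `M` and with `N` prime to `l`,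
where `l ≠ p` or the ramification index of `M` over `ℚ_p` is less than `l - 1` (`Gda`).
Now let `F` be a number field and `V` a variety over `F`.
(2) Let DATA over `F` be given. For almost all finite places `v` of `F` the group `F^2(V_v)` is `a`-divisible for all `a` prime
to `N` whose prime factors are larger than the genera of the curves. There is a finite set `S` of finite places such that for
almost all prime numbers `l`: if at each place `v` of `S` there are DATA with good reduction over a finite extension of `F_v`
(`Pga`) or `F^2(V_v)` is `l`-divisible, then `F^2(V_v)` is `l`-divisible for all finite places `v`.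
(3) Let `Λ` be a set of odd prime numbers such that `F^2(V_v)` is `l`-divisible for all `l` of `Λ` and all finite `v`. The
adelic group `F^2_A(V)` (families of zero-cycles of degree `0` and sum `0` at all places, modulo rational equivalence and, at
the infinite places, norms) is divisible by all `a` with prime factors in `Λ`. Let `z` be an element of the completion of
`F^1_A(V)`. Its components at the primes of `Λ` are in the image of `Δ` (of the completion of `F^1(V)`) if and only if the
sums of `z` are, modulo `a V(F_v)` for all such `a` and all finite `v`, those of an element of the completion of `F^1(V)`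
(`SumIm`); this is so if they come from an element of the completion of the group `V(F)` (`PtIm`).
(4) There are DATA for the product of the Jacobians of the curves `C_1, .., C_n`, with `m = N = 1`. -/
theorem Pool.Agent.Results.MP_f80667_ag.AbelianVarieties.result :
    (∀ (F : Type) [Field F] (V : Vr F) (G : Gr V), Fc V →
      (∀ (F₀ : Type) [Field F₀] [NumberField F₀] (v : HeightOneSpectrum (𝓞 F₀))
        [Algebra F (FK F₀ v)] (l : ℕ), l.Prime → Gda (Iv v) G l → DvS G (FK F₀ v) l) ∧
      ∀ [NumberField F],
        (∀ (n : ℕ) (C : Fin n → CV.Crv F) (m N : ℕ), Nonempty (Fac F C G m) → Tor G m N →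
          {v : HeightOneSpectrum (𝓞 F) | ¬ ∀ a : ℕ, a ≠ 0 → (∀ l : ℕ, l.Prime → l ∣ a →
            l.Coprime N ∧ ∀ i, gn (C i) < l) → DvS G (FK F v) a}.Finite ∧
          ∃ S : Set (HeightOneSpectrum (𝓞 F)), S.Finite ∧
            {l : ℕ | l.Prime ∧ ¬ ((∀ v ∈ S, Pga (Iv v) G ∨ DvS G (FK F v) l) →
              ∀ v : HeightOneSpectrum (𝓞 F), DvS G (FK F v) l)}.Finite) ∧
        ∀ Λ : Set ℕ, (∀ l ∈ Λ, l.Prime ∧ l ≠ 2 ∧ ∀ v : HeightOneSpectrum (𝓞 F),
          DvS G (FK F v) l) →
          (∀ a : ℕ, a ≠ 0 → Sf Λ a → ∀ c : Fam V, AlbSA G c →
            ∃ c' : Fam V, AlbSA G c' ∧ c.cl = a • c'.cl) ∧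
          ∀ z : LHat (FA V), (ImDeS Λ z ↔ SumIm G Λ z) ∧ (PtIm G Λ z → ImDeS Λ z)) ∧
    ∀ (F : Type) [Field F] (n : ℕ) (C : Fin n → CV.Crv F),
      Fc (JP C) ∧ Nonempty (Fac F C (grP C) 1) ∧ Tor (grP C) 1 1 :=
  ⟨fun _ _ _ G hV => main_A (fun _ hl => AV.lj hl) hV G, fun _ _ n C => main_J n C⟩
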