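import Mathlib
import Pool.Agent.Lib.MP_f80667_ag.Be.StP

open BE ZC Polynomial IsDedekindDomain NumberField

/-- Zero-cycles on bielliptic surfaces. Let `F` be a number field, `E₁ : Y² = X (X² + a X + b)`,
`t = (0, 0)`, `E₂ : v² = g(w) = w³ + c₂ w² + c₁ w + c₀` elliptic curves over `F` (`C : Cf F`),
`X = (E₁ × E₂) / ((u, y) ~ (u + t, - y))`, a bielliptic surface (`C.X`), `B = E₁ / t` its Albanese
variety (`C.B`), `pr : X → B`. Assume `C.Ok`: every finite place `v` satisfies one of
* `G1`: `v` is odd, the two equations are integral with good reduction at `v`;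
* `G2`: `v` is odd and `g` has no root in `F_v`;
* `G3`: `F_v` is unramified over `ℚ_2`, `g` is integral with unit discriminant and without root modulo
  `v`, `a` is a unit and a square in `F_v`, `v(b) ≥ 7`;
and for every real embedding `b < 0` or `disc g < 0`.
(1) For all places `v` the kernel of `pr_*` on the group of the zero-cycles of degree `0` on `X_v` modulo
rational equivalence (and norms if `v` is infinite) consists of the classes of the cycles
`[(0, y)] - [(0, 0)]`, `y ∈ E₂(F_v)`. It is killed by `2`, the class is additive in `y`, and the kernel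
is `0` if `v` satisfies `G2`.
(2) Let `z` be a family of zero-cycles of degree `0` on all `X_v` whose class in `F^1_A(X)` is in the
kernel of `pr_*` (an element of the adelic Albanese kernel) and is orthogonal to the elements
`A_c = cor_(L/F) (X'(u) (w - e), c)` of `Br(X)`, `L = F[e] = F[w] / g`, `c ∈ L^*`. It comes from the
`2`-Selmer group of `E₂`: there are `c₀ ∈ L^*` and `y_v ∈ E₂(F_v)` with the class of `c₀` in
`(L ⊗ F_v)^*` modulo squares such that `z` is equivalent to the family of the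
`[(0, y_v)] - [(0, 0)]`.
(3) Assume that the Tate-Shafarevich group of `E₂` has no element of order `2` (`C.Slm`). Then `z` as in
(2) is equivalent to the family given by `[(0, y)] - [(0, 0)]` for one `y ∈ E₂(F)`. An element `z` of
the completion of `F^1_A(X)` which is orthogonal to the `A_c` and whose push-forward to `B` is in the
image of `Δ` is in the image of `Δ`: the statement Q1 for `B` implies the statement Q1 for `X`.
(4) Let `F = ℚ`, `E₂ : v² = w³ + w² - 2 w - 1`, `a`, `b` integers. Then `C.Slm` holds, and `C.Ok` holds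
if `a ≡ 1` modulo `8`, `b < 0`, `128 ∣ b` and no prime number `p ≡ ± 1` modulo `7` divides
`b (a² - 4 b)`. -/
theorem Pool.Agent.Results.MP_f80667_ag.Bielliptic.result :
    (∀ (F : Type) [Field F] [NumberField F] (C : Cf F), C.Ok →
      (∀ v : HeightOneSpectrum (𝓞 F), C.Loc (FK F v) ∧
        (C.G2 v → ∀ y, (C.fz (FK F v) y).cl = 0)) ∧
      (∀ v : InfinitePlace F, C.LocN (IK F v)) ∧
      (∀ z : Fam C.X, (C.psA z).cl = 0 → (∀ z' : Fam C.X, z'.cl = z.cl → C.Ort z') →
        ∃ (c₀ : F[X]) (y : C.PtA), IsCoprime c₀ C.g ∧ C.DlA c₀ y ∧ z.cl = (C.fzA y).cl) ∧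
      (C.Slm →
        (∀ z : Fam C.X, (C.psA z).cl = 0 → (∀ z' : Fam C.X, z'.cl = z.cl → C.Ort z') →
          ∃ y : Pt C.W₂ F, z.cl = (C.fzA (C.dgP y)).cl) ∧
        ∀ (z : LHat (FA C.X)) (z' : LHat (FA C.B)), C.IsPs z z' → ImDe z' →
          (∀ c : Fam C.X, z.Rep 2 c.cl → C.Ort c) → ImDe z)) ∧
    ∀ (a b : ℤ) (hb : b ≠ 0) (hab : a ^ 2 - 4 * b ≠ 0), (Cab a b hb hab).Slm ∧
      (a % 8 = 1 → b < 0 → 128 ∣ b →
        (∀ p : ℕ, p.Prime → (p : ℤ) ∣ b * (a ^ 2 - 4 * b) → p % 7 ≠ 1 ∧ p % 7 ≠ 6) →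
          (Cab a b hb hab).Ok) := by
  refine ⟨fun F _ _ C h => ⟨fun v => ?_, fun v => ?_, st_sel C h,
    fun hS => ⟨st_glob C h hS, st_hat C h hS⟩⟩,
    fun a b hb hab => ⟨slm_of _ (Cab_sel a b hb hab), fun ha hb' hb2 hp => Cab_ok hb hab ha hb' hb2 hp⟩⟩
  · obtain ⟨h1, h2, h3⟩ := loc_fin C v (h.fin v)
    exact ⟨loc_of C h1 h2 h3, fun hv y => Zc.cl_zero.2 (loc_fin₂ C v hv y)⟩
  · obtain ⟨h1, h2, h3⟩ := loc_inf C h v
    exact locN_of C h1 h2 h3
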