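import Mathlib
import Pool.Agent.Lib.MP_f80667_ag.Cv.Fin

open CV PE BE ZC IsDedekindDomain NumberField

/-- Zero-cycles on products of curves. `C i`, `i ∈ ι` (`ι` finite): smooth projective geometrically integral curves with a
rational point (`Crv`), `X` their product (`Vpi fun i => (C i).V`).
(1) Let `F_v` be the completion of a number field at a finite place, `C i` curves over `F_v` and `l` a prime number. Let the
`C i` have good reduction over an extension `M` of `F_v` of degree prime to `l`, with ramification index
`e(M / ℚ_l) < l - 1` if `v` is above `l` (`Gr`). The Albanese kernel `T(X)`, the group of the classes modulo rational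
equivalence of the zero-cycles of degree `0` whose push-forwards to the `C i` are rationally equivalent to `0`, is
`l`-divisible (`DvP`). If the `C i` have potentially good reduction (`PrG`), this holds for all but finitely many `l`.
Now let `F` be a number field and `C i` curves over `F`.
(2) For all but finitely many finite places `v` of `F` the group `T(X_v)` is divisible. The first part of (1) for the
completions of `F`.
(3) If the `C i` have potentially good reduction at all finite places, then for all but finitely many prime numbers `l` the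
groups `T(X_v)` are `l`-divisible for all `v`.
(4) Let `Λ` be a set of odd prime numbers such that `T(X_v)` is `l`-divisible for all `l ∈ Λ` and all finite `v`. The adelic
Albanese kernel (families of zero-cycles of degree `0` over all places whose push-forwards to the `C i` are equivalent to `0`,
modulo rational equivalence and, at the infinite places, norms) is divisible by all `m` with prime factors in `Λ`, and the
components at the primes of `Λ` of an element `z` of the completion of `F^1_A(X)` are in the image of `Δ` if and only if
this holds for its push-forwards to all `C i`. -/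
theorem Pool.Agent.Results.MP_f80667_ag.CurveProducts.result :
    (∀ (F : Type) [Field F] [NumberField F] (v : HeightOneSpectrum (𝓞 F)) (ι : Type) [Fintype ι]
      (C : ι → Crv (FK F v)),
      (∀ l : ℕ, l.Prime → Gr (Iv v) C l → DvP (FK F v) (fun i => (C i).V) l) ∧
      (PrG (Iv v) C → {l : ℕ | l.Prime ∧ ¬ DvP (FK F v) (fun i => (C i).V) l}.Finite)) ∧
    ∀ (F : Type) [Field F] [NumberField F] (ι : Type) [Fintype ι] (C : ι → Crv F),
      {v : HeightOneSpectrum (𝓞 F) | ¬ ∀ m : ℕ, m ≠ 0 →
        DvP (FK F v) (fun i => (C i).V) m}.Finite ∧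
      (∀ (v : HeightOneSpectrum (𝓞 F)) (l : ℕ), l.Prime → Gr (Iv v) C l →
        DvP (FK F v) (fun i => (C i).V) l) ∧
      ((∀ v : HeightOneSpectrum (𝓞 F), PrG (Iv v) C) →
        {l : ℕ | l.Prime ∧ ¬ ∀ v : HeightOneSpectrum (𝓞 F),
          DvP (FK F v) (fun i => (C i).V) l}.Finite) ∧
      ∀ Λ : Set ℕ, (∀ l ∈ Λ, l.Prime ∧ l ≠ 2 ∧
        ∀ v : HeightOneSpectrum (𝓞 F), DvP (FK F v) (fun i => (C i).V) l) →
        (∀ m : ℕ, m ≠ 0 → Sf Λ m → ∀ c : Fam (Vpi fun i => (C i).V), AlbPA c →
          ∃ c' : Fam (Vpi fun i => (C i).V), AlbPA c' ∧ c.cl = m • c'.cl) ∧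
        ∀ (z : LHat (FA (Vpi fun i => (C i).V))) (z' : ∀ i, LHat (FA (C i).V)),
          (∀ i, IsPs i z (z' i)) → (ImDeS Λ z ↔ ∀ i, ImDeS Λ (z' i)) :=
  ⟨fun _ _ _ _ _ _ _ => ⟨fun _ hl h => fin_loc hl h, fun h => fin_pot h⟩,
    fun _ _ _ _ _ C => ⟨fin_all C, fun _ _ hl h => fin_loc hl h, fin_pgd C,
      fun _ h => fin_glob (fun i => (C i).bp) h⟩⟩
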