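import Mathlib
import Pool.Agent.Lib.MP_f80667_ag.Pe.GloC
import Pool.Agent.Lib.MP_f80667_ag.Pe.Ex
import Pool.Agent.Lib.MP_f80667_ag.Pe.GlE

open PE BE ZC IsDedekindDomain NumberField

/-- Zero-cycles on products of two elliptic curves.
(1) Let `F` be any number field, `W₁`, `W₂` Weierstrass equations over `F` of two elliptic curves `E₁`, `E₂` and
`X = E₁ × E₂` (`Xv W₁ W₂`). All prime numbers `l` outside a finite set satisfy `Gl W₁ W₂ l`: `l ≥ 5`; at each place
`v` over `l` the field `F_v` is unramified over `ℚ_l`, both equations are `v`-integral, one of the discriminants is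
a `v`-unit and the other one has valuation `0` or `1`; at each other finite place the `j`-invariants are integral or
their valuations are not divisible by `l`. Let `Λ` be a set of prime numbers which satisfy this. The adelic Albanese
kernel `F²_A(X)` (families of zero-cycles of degree `0` over all places with `alb = 0`, modulo rational equivalence
and, at the infinite places, norms) is divisible by all `m` with prime factors in `Λ`, and the components at the
primes of `Λ` of an element `z` of the completion of `F^1_A(X)` are in the image of `Δ` if and only if those of its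
push-forwards `z₁`, `z₂` to `E₁`, `E₂` are: the `l`-primary parts of Q1 for `E₁` and for `E₂` imply the one for `X`.
(2) Let `F` be a number field, `v` a finite place such that `F_v` is unramified over `ℚ_p`, `W₁`, `W₂`
Weierstrass equations over `F` with `v`-integral coefficients, `v(Δ₁) ≤ 1`, `v(Δ₂) = 0`, and
`v(a₁(W₂)) > 0` if `p = 2` (`Lv W₁ W₂ v`). The Albanese kernel `F²(X_v)`, the group of the classes modulo rational
equivalence of the zero-cycles `z` of degree `0` on `X_v` with `alb(z) = 0` (the sums of the points of both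
push-forwards of `z` to `E₁`, `E₂` are `0`, `Alb z`), is divisible (`DvA`).
(3) Let `A`, `B` be integral Weierstrass equations over `ℤ`, `Δ_A Δ_B` squarefree, `a₁` even and `a₃`
odd for one of the two curves (supersingular reduction at `2`), `Δ_A < 0` or `Δ_B < 0` (`Ok A B`), and
`X = A × B` over `ℚ`. The adelic Albanese kernel `F²_A(X)` is divisible, and an element `z` of the
completion of `F^1_A(X)` is in the image of `Δ` if and only if its push-forwards `z₁`, `z₂` to `A`, `B`
are: the statements Q1 for `A` and for `B` imply the statement Q1 for `X`.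
(4) The curves 11a3 `y² + y = x³ - x²` and 43a1 `y² + y = x³ + x²` satisfy the conditions of (3). -/
theorem Pool.Agent.Results.MP_f80667_ag.EllipticProducts.result :
    (∀ (F : Type) [Field F] [NumberField F] (W₁ W₂ : WeierstrassCurve F) [W₁.IsElliptic] [W₂.IsElliptic],
      {l : ℕ | l.Prime ∧ ¬ Gl W₁ W₂ l}.Finite ∧
      ∀ Λ : Set ℕ, (∀ l ∈ Λ, Gl W₁ W₂ l) →
        (∀ m : ℕ, m ≠ 0 → Sf Λ m → ∀ c : Fam (Xv W₁ W₂), AlbA c →
          ∃ c' : Fam (Xv W₁ W₂), AlbA c' ∧ c.cl = m • c'.cl) ∧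
        ∀ (z : LHat (FA (Xv W₁ W₂))) (z₁ : LHat (FA (Ev W₁))) (z₂ : LHat (FA (Ev W₂))),
          Is₁ z z₁ → Is₂ z z₂ → (ImDeS Λ z ↔ ImDeS Λ z₁ ∧ ImDeS Λ z₂)) ∧
    (∀ (F : Type) [Field F] [NumberField F] (v : HeightOneSpectrum (𝓞 F))
      (W₁ W₂ : WeierstrassCurve F), Lv W₁ W₂ v → DvA (FK F v) W₁ W₂) ∧
    (∀ A B : WeierstrassCurve ℤ, PE.Ok A B →
      (∀ n : ℕ, n ≠ 0 → ∀ c : Fam (Xv (toQ A) (toQ B)), AlbA c →
        ∃ c' : Fam (Xv (toQ A) (toQ B)), AlbA c' ∧ c.cl = n • c'.cl) ∧
      ∀ (z : LHat (FA (Xv (toQ A) (toQ B)))) (z₁ : LHat (FA (Ev (toQ A))))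
        (z₂ : LHat (FA (Ev (toQ B)))), Is₁ z z₁ → Is₂ z z₂ → (ImDe z ↔ ImDe z₁ ∧ ImDe z₂)) ∧
    PE.Ok ⟨0, -1, 1, 0, 0⟩ ⟨0, 1, 1, 0, 0⟩ := by
  refine ⟨fun F _ _ W₁ W₂ _ _ => main_E W₁ W₂, fun F _ _ v W₁ W₂ h => dv_fin h,
    fun A B h => ⟨?_, ?_⟩, ok_ex⟩
  · exact fam_dv (cf_ok h) (ci_ok h)
  · intro z z₁ z₂ h₁ h₂
    exact ⟨fun hz => ⟨imDe₁ h₁ hz, imDe₂ h₂ hz⟩,
      fun hz => hatX (cf_ok h) (ci_ok h) z z₁ z₂ h₁ h₂ hz.1 hz.2⟩
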