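import Mathlib
import Pool.Agent.Lib.MP_f80667_ag.St.Gl

open GX ZC BE IsDedekindDomain NumberField

/-- The Albanese kernel and the reduction of zero-cycles, for every nonsingular projective variety.
Let `F` be a number field and `X` a nonsingular projective variety of dimension `d` over `F`, given by finitely many
homogeneous polynomials `f_i` in `N` variables (`Nsg f d`: the ideal of the `f_i` is prime, the homogeneous coordinate ring has
transcendence degree `d + 1`, and at every point over the algebraic closure the tangent space of the cone has dimension at most
`d + 1`). Let `A` be a projective variety over `F` with a group law whose differences are computed by finitely many vectors of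
polynomials (`A.Ok`), and let `M` be a morphism `φ` from `X` to `A`, given by finitely many vectors of polynomials (`M.Ok`), such that
every global `1`-form on `X` over the algebraic closure of `F` is the pullback of an invariant form of `A`
(`M.Alb (AlgebraicClosure F)`). For example the Albanese map. Then for all finite places `v` outside a finite set the following holds.
Let `V` be the valuation ring of the algebraic closure of `F_v` above the integers of `F_v`. Every zero-cycle `z` on `X_v` whose reduction
is zero (over each point of the reduction the sum of the coefficients is `0`, `Zrd f V z`) and for which the sum of `φ (z)` in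
`A` is `0` (`M.S Ω z = 0`) is, for every `m ≥ 1`, rationally equivalent to `m z'` for a zero-cycle `z'` on `X_v` whose reduction is zero
and for which the sum of `φ (z')` is `0` (`Dva M V (F_v)`). -/
theorem Pool.Agent.Results.MP_f80667_ag.EveryVariety.result (F : Type) [Field F] [NumberField F]
    (N N' k k' d : ℕ) (ι ι' : Type) [Finite ι] (f : ι → MvPolynomial (Fin N) F)
    (A : Gv F N' k' ι') (M : Mf f A k) (hf : Nsg f d) (hA : A.Ok) (hM : M.Ok)
    (h : M.Alb (AlgebraicClosure F)) :
    {v : HeightOneSpectrum (𝓞 F) | ¬ ∀ V : ValuationSubring (AlgebraicClosure (FK F v)),
      V.comap (algebraMap (FK F v) _) = CV.Iv v → Dva M V (FK F v)}.Finite :=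
  fin_alb hf hA hM h
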