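import Mathlib
import Pool.Agent.Lib.MP_f80667_ag.Qb.Fin

open NumberField IsDedekindDomain ZC

/-- Zero-cycles on families of intersections of quadrics. Let `F` be a number field,
`W ⊆ P^(N-1)` the closed subset given by homogeneous polynomials `h j` over `F`, and
`X ⊆ W × P^(n-1)` the set of the pairs `([w], [x])` with `[w] ∈ W` and `x · (A i (w) x) = 0` for the
`r` square matrices `A i`, all entries of `A i` being homogeneous polynomials of the same degree in
`w`. Let `n > 8 r`, or `r = 1` and `n ≥ 5`.
(1) For every finite place `v` of `F` every zero-cycle on `W_v` is the push-forward of a zero-cycle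
on `X_v`, and a zero-cycle on `X_v` is rationally equivalent to `0` if and only if its push-forward
is.
(2) Let `v` be real, such that the fibres of `X` over the points of `W(F_v)` have `F_v`-points, and
let `r = 1`, or let the sets of the `F_v`-points of these fibres be connected and `X` smooth at its
`F_v`-points. Then the push-forward from `X_v` to `W_v` is bijective on zero-cycles of degree `0`
modulo rational equivalence and norms.
(3) Let `r = 1`, and let for every real place `v` the fibres of `X` over the points of `W(F_v)` have
`F_v`-points; or let `n > 2 r (r + 1)`, and `W(F_v)` be empty for every real `v`. Then the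
push-forward from `X` to `W` is surjective on zero-cycles of degree `0` modulo rational equivalence.
(4) Suppose that the push-forward is bijective as in (2) for every real place. Then it induces a
bijection `φ : LHat (FA2 h A) ≃ LHat (FA h)` of the completed adelic groups (if a family of cycles
represents `z` modulo `m`, its push-forward represents `φ z` modulo `m`). If moreover the push-forward
is surjective as in (3), an element `z` is in the image of `Δ` for `X` if and only if `φ z` is in the
image of `Δ` for `W`. So, for a map `b : B → B'` and pairings `PW`, `PX` of the completed adelic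
groups of `W` with `B` and of `X` with `B'` which satisfy the projection formula: if the elements
orthogonal to `B` are in the image of `Δ` for `W`, the elements orthogonal to `B'` are in the image
of `Δ` for `X`. -/
theorem Pool.Agent.Results.MP_f80667_ag.Families.result (F : Type) [Field F] [NumberField F]
    (N n r : ℕ) (hn : 8 * r < n ∨ (r = 1 ∧ 5 ≤ n)) (κ : Type) (h : κ → MvPolynomial (Fin N) F)
    (hh : ∀ j, ∃ d, (h j).IsHomogeneous d)
    (A : Fin r → Matrix (Fin n) (Fin n) (MvPolynomial (Fin N) F))
    (hA : ∀ i, ∃ e, ∀ a b, (A i a b).IsHomogeneous e) :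
    (∀ v : HeightOneSpectrum (𝓞 F), PfBij (FK F v) (hE (FK F v) h) (AE (FK F v) A)) ∧
    (∀ v : InfinitePlace F, v.IsReal → FibPt (IK F v) (hE (IK F v) h) (AE (IK F v) A) →
      (r = 1 ∨ (FibCn (IK F v) (hE (IK F v) h) (AE (IK F v) A) ∧
        SmR (IK F v) (hE (IK F v) h) (AE (IK F v) A))) →
      PfBijN (IK F v) (hE (IK F v) h) (AE (IK F v) A)) ∧
    (((r = 1 ∧ ∀ v : InfinitePlace F, v.IsReal →
        FibPt (IK F v) (hE (IK F v) h) (AE (IK F v) A)) ∨
      (2 * r * (r + 1) < n ∧ ∀ v : InfinitePlace F, v.IsReal → NoPt (IK F v) (hE (IK F v) h))) →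
      PfOnto F h A) ∧
    ((∀ v : InfinitePlace F, v.IsReal → PfBijN (IK F v) (hE (IK F v) h) (AE (IK F v) A)) →
      ∃ φ : LHat (FA2 h A) ≃ LHat (FA h),
        (∀ (z : LHat (FA2 h A)) (m : ℕ+) (c : ZA2 h A), z.Rep m (clA2 c) →
          (φ z).Rep m (clA (pfA c))) ∧
        (PfOnto F h A →
          (∀ z, ImD2 hh hA z ↔ ImD hh (φ z)) ∧
          ∀ (B B' T : Type) [Zero T] (b : B → B') (PW : LHat (FA h) → B → T)
            (PX : LHat (FA2 h A) → B' → T), (∀ z β, PX z (b β) = PW (φ z) β) →
            (∀ y, (∀ β, PW y β = 0) → ImD hh y) → ∀ z, (∀ β, PX z β = 0) → ImD2 hh hA z)) :=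
  ⟨fun v => Qb.fin_part hh hA hn v,
    fun v hv hp H => H.elim (fun hr => real_one hr (by omega) hh hA hv hp)
      (fun H => real_sm hh hA hv hp H.1 H.2),
    fun H => Qb.onto hh hA (H.imp_left fun H => ⟨H.1, by have := H.1; omega, H.2⟩),
    fun hreal => Qb.fin_transfer hh hA hn hreal⟩
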