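import Mathlib
import Pool.Agent.Lib.MP_f80667_ag.Gy.Rd
import Pool.Agent.Lib.MP_f80667_ag.Gx.PjP

open GX ZC BE IsDedekindDomain NumberField

/-- Zero-cycles with zero reduction modulo `m` on nonsingular projective varieties.
Let `F` be a number field and `X` a nonsingular projective variety of dimension `d` over `F`, given by finitely many
homogeneous polynomials `f_i` in `N` variables (`Nsg f d`: the ideal of the `f_i` is prime, the homogeneous coordinate ring has
transcendence degree `d + 1`, and at every point over the algebraic closure the tangent space of the cone has dimension at most
`d + 1`). Let `g` be a number such that any `g + 1` global `1`-forms on `X` over the algebraic closure of `F` are linearly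
dependent (`DmF g`). Then for all finite places `v` outside a finite set the following holds. Let `V` be the valuation ring of the
algebraic closure of `F_v` above the integers of `F_v`, `m ≥ 1` and `n` with `m ∉ v ^ (n + 1)`. The zero-cycles on `X_v` whose
reduction is zero (over each point of the reduction the sum of the coefficients is `0`, `Zrd f V z`) have at most `(N v) ^ (g n)`
classes modulo rational equivalence and modulo `m` times such cycles (`Cbk f V (F_v) m b`: there are at most `b` such cycles `e`
so that each such cycle is rationally equivalent to some `e + m z'`, `z'` a zero-cycle on `X_v` with reduction zero). The number `m` may be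
divisible by the residue characteristic. For `g = 0` (no global `1`-forms) all these cycles are divisible by `m`. -/
theorem Pool.Agent.Results.MP_f80667_ag.FiniteClasses.result (F : Type) [Field F]
    [NumberField F] (N d g : ℕ) (ι : Type) [Finite ι] (f : ι → MvPolynomial (Fin N) F)
    (hf : Nsg f d)
    (h : DmF g fun i => MvPolynomial.map (algebraMap F (AlgebraicClosure F)) (f i)) :
    {v : HeightOneSpectrum (𝓞 F) | ¬ ∀ V : ValuationSubring (AlgebraicClosure (FK F v)),
      V.comap (algebraMap (FK F v) _) = CV.Iv v → ∀ m n : ℕ, m ≠ 0 →
        (m : 𝓞 F) ∉ v.asIdeal ^ (n + 1) →
          Cbk f V (FK F v) m (Ideal.absNorm v.asIdeal ^ (g * n))}.Finite := by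
  obtain ⟨m, ψ, h1, h2⟩ := hf.exists_prj
  exact fin_cb hf.hom h1 h2 h
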