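import Mathlib
import Pool.Agent.Lib.MP_f80667_ag.Cv.GlbF
import Pool.Agent.Lib.MP_f80667_ag.Ctf.TD

open CV PE BE ZC IsDedekindDomain NumberField

/-- Zero-cycles on products of curves: any ramification. `C i`, `i ∈ ι` (`ι` finite): smooth projective geometrically
integral curves with a rational point (`Crv`), `X` their product (`Vpi fun i => (C i).V`), `T(X)` the Albanese kernel, the
group of the classes modulo rational equivalence of the zero-cycles of degree `0` whose push-forwards to the `C i` are
rationally equivalent to `0`.
(1) Let `F_v` be the completion of a number field at a finite place and `C i` curves over `F_v` with potentially good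
reduction (`PrG`). There is no condition on the ramification of `F_v`. There are `N > 0` and a finite subset `E` of `T(X)`
such that `N T(X)` is contained in `E + n T(X)` for all `n > 0`, and `N` is prime to all `l` such that the `C i` have good
reduction over an extension of `F_v` of degree prime to `l` (`Gq`, `FbP`). So `T(X)` is the sum of a divisible group, a
finite group and a group of exponent `N`; `N = 1` if the `C i` have good reduction over `F_v`.
(2) Let `F` be a number field, `C i` curves over `F` and `Λ` a set of odd prime numbers. Let at every finite place `v` the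
`C i` have potentially good reduction, for every `l ∈ Λ` good reduction over an extension of `F_v` of degree prime to `l`,
or let there be `N_v` prime to `Λ` and `E_v` as in (1). There are `N > 0` prime to `Λ` and a finite subset `E` of the adelic
Albanese kernel `T_A` (families of zero-cycles of degree `0` over all places whose push-forwards to the `C i` are equivalent
to `0`, modulo rational equivalence and, at the infinite places, norms) such that `N T_A` is contained in `E + n T_A` for all
`n > 0`. Let `z` be in the completion of `F^1_A(X)` and `Λ'` a set of prime numbers. If the components at the primes in `Λ'`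
of the push-forwards of `z` to all `C i` are in the image of `Δ`, so are those of `N z - e` for one of the `e ∈ E`. -/
theorem Pool.Agent.Results.MP_f80667_ag.FiniteObstruction.result :
    (∀ (F : Type) [Field F] [NumberField F] (v : HeightOneSpectrum (𝓞 F)) (ι : Type) [Fintype ι]
      (C : ι → Crv (FK F v)), PrG (Iv v) C →
        FbP (FK F v) (fun i => (C i).V) {l | l.Prime ∧ Gq (Iv v) C l}) ∧
    ∀ (F : Type) [Field F] [NumberField F] (ι : Type) [Fintype ι] (C : ι → Crv F) (Λ : Set ℕ),
      (∀ l ∈ Λ, l.Prime ∧ l ≠ 2) →
      (∀ v : HeightOneSpectrum (𝓞 F), (PrG (Iv v) C ∧ ∀ l ∈ Λ, Gq (Iv v) C l) ∨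
        FbP (FK F v) (fun i => (C i).V) Λ) →
      ∃ N : ℕ, N ≠ 0 ∧ (∀ l ∈ Λ, ¬ l ∣ N) ∧
        ∃ E : Set (Fam (Vpi fun i => (C i).V)), E.Finite ∧ (∀ e ∈ E, AlbPA e) ∧
          (∀ n : ℕ, n ≠ 0 → ∀ c : Fam (Vpi fun i => (C i).V), AlbPA c →
            ∃ e ∈ E, ∃ c' : Fam (Vpi fun i => (C i).V), AlbPA c' ∧
              N • c.cl = e.cl + n • c'.cl) ∧
          ∀ (Λ' : Set ℕ) (z : LHat (FA (Vpi fun i => (C i).V))) (z' : ∀ i, LHat (FA (C i).V)),
            (∀ i, IsPs i z (z' i)) → (∀ i, ImDeS Λ' (z' i)) →
              ∃ e ∈ E, ImDeS Λ' (LHat.tr (nML N z) (-e.cl)) :=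
  ⟨fun _ _ _ _ _ _ C h => fbP_pot (lcA C) (lcF C) h, fun _ _ _ _ _ C _ h2 h =>
    fbP_glob (fun i => (C i).bp) h2 (fin_all C) fun v =>
      (h v).elim (fun h4 => (fbP_pot (lcA C) (lcF C) h4.1).mono
        fun l hl => (⟨(h2 l hl).1, h4.2 l hl⟩ : l.Prime ∧ Gq (Iv v) C l)) id⟩
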