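import Mathlib
import Pool.Agent.Lib.MP_f80667_ag.Pe.Kg
import Pool.Agent.Lib.MP_f80667_ag.Kf.Dtg

open PE BE ZC IsDedekindDomain NumberField

/-- Zero-cycles on K3 surfaces.
For a variety `V` over a number field and a set `P` of prime numbers let `QP V P` be the statement: the group
`F^1_A(V)` (families of zero-cycles of degree `0` over all places, modulo rational equivalence and, at the infinite
places, norms) is divisible by all `m ≠ 0` with all prime factors in `P`, and the components at all primes `l ∈ P` of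
every element of the completion of `F^1_A(V)` are in the image of `Δ`. For `P` = all prime numbers this gives the
statement Q1 for `V`.
Let `f`, `g` be separable polynomials of degree three or four over a number field `F` (`Qf`), and let `S` be the
K3 surface `f(x) s² = g(y) t²` (`Kv f g`), the smooth model of `z² = f(x) g(y)`.
(1) There is `n₀` such that `QP S {l | n₀ < l}`.
Let `A`, `B` be nonsingular Weierstrass equations over `ℤ` and let `S` be the Kummer surface of `A × B` over `ℚ`
(`Ks A B`): in (1) with the polynomials `f = Ψ₂Sq = 4 x³ + b₂ x² + 2 b₄ x + b₆` of `A` and of `B`.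
(2) If `Δ_A Δ_B` is squarefree then `QP S {l | l ≠ 2}`.
(3) If moreover `Δ_A` and `a₁(B)` are even (`Ok₂ A B`) then `QP S P` for `P` = all prime numbers: Q1 holds for `S`.
Let `Eqs n` be the finite set of the equations over `ℤ` with `a₁, a₃ ∈ {0, 1}`, `|a₂| ≤ 1`, `|a₄| ≤ n²`, `|a₆| ≤ n³`
(every elliptic curve over `ℚ` has exactly one minimal equation with `a₁, a₃ ∈ {0, 1}`, `|a₂| ≤ 1`), and let `Nq n P` be
the number of the pairs `(A, B)` in `Eqs n × Eqs n` with `Δ_A ≠ 0`, `Δ_B ≠ 0` and `QP (Ks A B) P`.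
(4) There is `c > 0` such that `Nq n P ≥ c |Eqs n|²` for `P` = all prime numbers and all large `n`: Q1 holds for a
positive proportion of the Kummer surfaces of products of two elliptic curves over `ℚ`.
(5) For every `ε > 0` there is `L` such that `Nq n {l | L < l} ≥ (1 - ε) |Eqs n|²` for all large `n`. -/
theorem Pool.Agent.Results.MP_f80667_ag.KummerSurfaces.result :
    (∀ (F : Type) [Field F] [NumberField F] (f g : Polynomial F), Qf f → Qf g →
      ∃ n₀ : ℕ, QP (Kv f g) {l | n₀ < l}) ∧
    (∀ A B : WeierstrassCurve ℤ, Squarefree (A.Δ * B.Δ) → QP (Ks A B) {l | l ≠ 2}) ∧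
    (∀ A B : WeierstrassCurve ℤ, Ok₂ A B → QP (Ks A B) Set.univ) ∧
    (∃ c : ℝ, 0 < c ∧ ∃ n₀ : ℕ, ∀ n ≥ n₀, c * ((Eqs n).ncard : ℝ) ^ 2 ≤ (Nq n Set.univ : ℝ)) ∧
    ∀ ε : ℝ, 0 < ε → ∃ L n₀ : ℕ, ∀ n ≥ n₀,
      (1 - ε) * ((Eqs n).ncard : ℝ) ^ 2 ≤ (Nq n {l | L < l} : ℝ) :=
  ⟨fun F _ _ f g hf hg => main_Kq hf hg, fun A B h => qp_two h, fun A B h => qp_ok₂ h, nq_pos, nq_eps⟩
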