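import Mathlib
import Pool.Agent.Lib.MP_f80667_ag.Qs.Br
import Pool.Agent.Lib.MP_f80667_ag.Qs.Res

open QS Polynomial

/-- Zero-cycles on quotients of products of two superelliptic curves, among them the Kummer surfaces of the
Jacobians of curves of genus two.
Let `S` be the smooth surface `f(x) s ^ n = g(y) t ^ n` (`Sv D`), the smooth model of the quotient of the product of
the curves `u ^ n = f(x)`, `v ^ n = g(y)` by the group of the `n`-th roots of unity, and let `S'` (`Sw n r f`) be, for
`f = g`, the quotient of `S` by the involution `(x, y, [s : t]) ↦ (y, x, [t : s])`. For even `n` the surface `S'` is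
smooth; for `n = 2` and `f` of degree five or six it is birational to the Kummer surface of the Jacobian of the curve
`u ² = f(x)`.
(1) `Loc (Sv D) (Pm D)`: there is a finite set `B` of finite places such that for `v ∉ B` the group `A₀(S_v)` is
divisible by all `m ≠ 0` whose prime factors are prime to `n`, to `r` if `deg f = n r` and to `s` if `deg g = n s`
(`Pm`), the residue characteristic of `v` included. If `Λ` is a set of odd primes which satisfy `Pm` such that
`A₀(S_v)` is divisible by all `l ∈ Λ` for `v ∈ B`, then (`Ex S Λ`) the group `F^1_A(S)` (families of zero-cycles of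
degree `0` over all places, modulo rational equivalence and, at the infinite places, norms) is divisible by all `m ≠ 0`
with prime factors in `Λ`, and the components at all `l ∈ Λ` of every element of the completion of `F^1_A(S)` are in
the image of `Δ`.
(2) The same for `S'` with `n` even.
(3) Let `n`, `p`, `q` be primes with `n ∣ p + 1`, `n ∣ q + 1`, `α, β ≠ 0`, and let `S` be the surface
`(x ^ p + α) s ^ n = (y ^ q + β) t ^ n`. All but finitely many primes `l` satisfy `Fl`: `l` does not divide
`n (n - 1) p (p - 1) q (q - 1)`, and at the places `v` above `l` the ramification index is less than `l - 1` and `α`,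
`β` are units. `Ex S Λ` holds for `Λ = {l | Fl l}`.
(4) `Ex S' Λ` holds for `f = x ^ p + α`, `n = 2`, `p` an odd prime and `Λ = {l | Fl l}` (for `p = 5`: the Kummer
surface of the Jacobian of `y ² = x ^ 5 + α`). -/
theorem Pool.Agent.Results.MP_f80667_ag.QuotientSurfaces.result :
    (∀ (F : Type) [Field F] [NumberField F] (D : Dat F), D.Ok → Loc (Sv D) (Pm D)) ∧
    (∀ (F : Type) [Field F] [NumberField F] (n r : ℕ) (f : F[X]), Even n → (sq n r f).Ok →
      Loc (Sw n r f) (Pm (sq n r f))) ∧
    (∀ (F : Type) [Field F] [NumberField F] (n p q : ℕ) (α β : F), n.Prime → p.Prime → q.Prime →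
      n ∣ p + 1 → n ∣ q + 1 → α ≠ 0 → β ≠ 0 →
        {l : ℕ | l.Prime ∧ ¬ Fl n p q α β l}.Finite ∧
          Ex (Sv (fam n p q α β)) {l | Fl n p q α β l}) ∧
    ∀ (F : Type) [Field F] [NumberField F] (p : ℕ) (α : F), p.Prime → p ≠ 2 → α ≠ 0 →
      Ex (Sw 2 ((p + 1) / 2) (X ^ p + C α)) {l | Fl 2 p p α α l} :=
  ⟨fun _ _ _ _ hD => loc_S cpl hD, fun _ _ _ _ _ _ hn hD => loc_Sw cpl hn hD,
    fun _ _ _ _ _ _ _ _ hn hp hq hnp hnq hα hβ => ex_fam cpl hn hp hq hnp hnq hα hβ,
    fun _ _ _ _ _ hp h2 hα => ex_famSw cpl hp h2 hα⟩
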