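import Mathlib
import Pool.Agent.Lib.MP_f80667_ag.Dp.Top
import Pool.Agent.Lib.MP_f80667_ag.Ob.Fin

open NumberField IsDedekindDomain ZC

/-- Zero-cycles on smooth complete intersections of two quadrics of dimension at least two. Let `F` be
a number field and `X ⊆ P^(n-1)`, `n ≥ 5`, the closed subset given by two quadratic forms over `F` whose
gradients are linearly independent at every nonzero common zero over the algebraic closure. No
hypothesis on the points of `X`.
(1) For all finite places `v` outside a finite set `S`, which is empty if `n ≥ 7`, zero-cycles of degree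
`0` on `X_v` are rationally equivalent to `0`.
(2) Every element of the adelic group `F^1_A(X)` (classes of zero-cycles of degree `0` on all `X_v`, modulo
norms at the infinite places) which, if `n = 5`, is orthogonal to the classes in the Brauer group of `X`
given by pairs of conjugate degenerate members of the pencil (`Ob.Orth`), comes from a zero-cycle of
degree `0` over `F`.
(3) Every element `z` of the completion of `F^1_A(X)` such that, if `n = 5`, the elements which represent
`z` modulo `2` are orthogonal to these classes, is in the image of `Δ`. -/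
theorem Pool.Agent.Results.MP_f80667_ag.TwoQuadrics.result (F : Type) [Field F] [NumberField F]
    (n : ℕ) (hn : 5 ≤ n) (f : Fin 2 → MvPolynomial (Fin n) F) (hf : ∀ i, (f i).IsHomogeneous 2)
    (hs : ∀ x : Fin n → AlgebraicClosure F, x ≠ 0 → Zer f (AlgebraicClosure F) x →
      LinearIndependent (AlgebraicClosure F)
        fun (i : Fin 2) (j : Fin n) => MvPolynomial.aeval x (MvPolynomial.pderiv j (f i))) :
    (∃ S : Finset (HeightOneSpectrum (𝓞 F)), (7 ≤ n → S = ∅) ∧
      ∀ v ∉ S, Subsingleton (G1 (FK F v) (hE (FK F v) f))) ∧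
    (∀ a : FA f, (n = 5 → Ob.Orth f a) →
      ∃ c : Z1 F f, clA (dgA (fun j => ⟨2, hf j⟩) c) = a) ∧
    ∀ z : LHat (FA f), (n = 5 → ∀ a, z.Rep 2 a → Ob.Orth f a) →
      ImD (fun j => ⟨2, hf j⟩) z := by
  rcases Nat.lt_or_ge 5 n with h6 | h5
  · obtain ⟨h1, h2, h3⟩ := Dp.q1 F h6 f hf hs (fun j => ⟨2, hf j⟩)
    refine ⟨h2, fun a _ => ?_, fun z _ => h3 z⟩
    obtain ⟨x, hx⟩ := h1 a
    obtain ⟨c, rfl⟩ := G1.cls_surj x
    exact ⟨c, by rw [← hx, dl_cls]⟩
  · obtain rfl : n = 5 := le_antisymm h5 hn
    obtain ⟨⟨S, hS⟩, h2, h3⟩ := Ob.q5 f hf hs (fun j => ⟨2, hf j⟩)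
    exact ⟨⟨S, fun h => absurd h (by norm_num), hS⟩, fun a ha => h2 a (ha rfl),
      fun z hz => h3 z (hz rfl)⟩
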